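import Pool.Agent.V5helper58.HN.MainSep

/-!
# Periodic points of bounded degree of Hénon maps and places of bad reduction

Let `f(x, y) = (y, F(y) - δ x)` be a generalized Hénon map of degree `d` over a number field `K` of
degree at most `D`, where `F = a (y - b)^d + c` is unicritical (for example any polynomial of degree
two), or where the roots of the centred form of `F` are separated at the place `w` of largest size.
We prove that the number of the periodic points `P` of `f` over the algebraic closure with
`[K(P) : K] ≤ B` is at most `C (R log (1 + R))²` if `f` has potentially good reduction outside `R`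
finite places, or if `w` carries the part `1/R` of the height, with `C = C(D, d, B, H)`, if the height
of the Jacobian `δ` is at most `H + s_w / 8`. The starting file `BadPlacesBound` is the case `B = 1`
(for all `F`). For `B > 1` the points lie in infinitely many fields of degree at most `B` over `K`,
which have unboundedly many places of bad reduction altogether.

Proof: an interpolation determinant of `N` of these points over the algebraic closure. At a place `w`
of large size the orbits contract to their itineraries, so we can choose `N` points such that the
conjugates of any two of them are in the same cells. Then the minimal polynomials of the coordinates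
of one of them have small values at the coordinates of all of them and of all their conjugates, and
we use their powers. If all sizes are small, we use in the same way the minimal polynomials of the
coordinates at a place above `2`, where we choose points with nearly the same minimal polynomials. At
the other places we use products of coordinates of the orbit. Then the product formula for the
norm of the determinant gives the bound.
-/

set_option autoImplicit false

namespace Pool.Agent.Results.MP_0e6b5f_nt.BoundedDegreeBadPlaces

open Real NumberField Polynomial Pool.Agent.H951R3.PH

universe u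

/-- The sizes of the Hénon map at the infinite places (with multiplicities) and at the elements of
the set `T` of finite places. -/
noncomputable def size {K : Type u} [Field K] [NumberField K] (d : ℕ) (F : K[X]) (δ : K)
    (T : Finset (FinitePlace K)) : InfinitePlace K ⊕ T → ℝ :=
  Sum.elim (fun v => v.mult * siz v.val d F δ) (fun v => siz v.1.val d F δ)

/-- The roots of the centred form of `F` are separated at the absolute value `v` (up to
`exp (-ε)`): for every extension `w` of `v` to the algebraic closure, the distances between the roots
`ρ 1, …, ρ d` of the centred form are at least `exp (-ε) T / |a|^(1/(d-1))`, where `a` is the leading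
coefficient and `T` is the exponential of the size at `v`. -/
def Separated {K : Type u} [Field K] (v : AbsoluteValue K ℝ) (d : ℕ) (F : K[X]) (δ : K)
    (ε : ℝ) : Prop :=
  ∀ w : AbsoluteValue (AlgebraicClosure K) ℝ,
      (∀ x : K, w (algebraMap K (AlgebraicClosure K) x) = v x) →
    ∀ ρ : Fin d → AlgebraicClosure K,
      (cen d F δ).map (algebraMap K (AlgebraicClosure K)) =
        C (algebraMap K (AlgebraicClosure K) (F.coeff d)) * ∏ i, (X - C (ρ i)) →
    ∀ i j, i ≠ j → exp (-ε) * (Tv v d (cen d F δ) / al v d F) ≤ w (ρ i - ρ j)

theorem Separated.sep {K : Type u} [Field K] [CharZero K] {v : AbsoluteValue K ℝ} {d : ℕ}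
    (hd : 2 ≤ d) {F : K[X]} (hF : F.natDegree = d) {δ : K} {ε : ℝ}
    (h : Separated v d F δ ε) : V5helper58.HN.Sep v d (cen d F δ) ε := by
  have hlead : (cen d F δ).coeff d = F.coeff d := cen_lead hd hF δ
  intro w hw ρ hρ
  rw [hlead] at hρ
  have hal : al v d (cen d F δ) = al v d F := by
    unfold al
    rw [hlead]
  rw [hal]
  exact h w hw ρ hρ

/-- For all `d ≥ 2`, `D`, `B`, `H` there is `C₀` such that for every number field `K` of degree at
most `D` and every generalized Hénon map `f(x, y) = (y, F(y) - δ x)` of degree `d` over `K`: let `T`
be a finite set of finite places containing all those at which `f` does not have potentially good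
reduction, let `w` be an infinite place or an element of `T` at which the size `s_w` of `f` (with
multiplicities at the infinite places) is largest, suppose that `F = a (X - b)^d + c` is unicritical
or that the roots of its centred form are separated at `w` (up to `exp (-(H + log T_w / 8))`), and that
the height of `δ` (times `[K : ℚ]`) is at most `H + s_w / 8`. If `R ≥ 1` is at least the number of
elements of `T`, or if the sum of the sizes is at most `R (1 + s_w)`, then `f` has at most
`C₀ (R log (1 + R))²` periodic points `P` over the algebraic closure with `[K(P) : K] ≤ B`. -/
theorem result (d : ℕ) (hd : 2 ≤ d) (D B : ℕ) (H : ℝ) : ∃ C₀ : ℝ, 0 < C₀ ∧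
    ∀ (K : Type u) [Field K] [NumberField K], Module.finrank ℚ K ≤ D →
    ∀ (F : K[X]) (δ : K), F.natDegree = d → δ ≠ 0 →
    ∀ T : Finset (FinitePlace K), (∀ v, v ∉ T → PotGood v.val d F δ) →
    ∀ w : InfinitePlace K ⊕ T, (∀ w', size d F δ T w' ≤ size d F δ T w) →
      ((∃ a b c : K, F = C a * (X - C b) ^ d + C c) ∨
        Sum.elim (fun v : InfinitePlace K => Separated v.val d F δ (H + siz v.val d F δ / 8))
          (fun v : T => Separated v.1.val d F δ (H + siz v.1.val d F δ / 8)) w) →
      Height.logHeight₁ δ ≤ H + size d F δ T w / 8 →
    ∀ R : ℝ, 1 ≤ R →
      ((T.card : ℝ) ≤ R ∨ ∑ w', size d F δ T w' ≤ R * (1 + size d F δ T w)) →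
    ∀ Y : Finset (AlgebraicClosure K × AlgebraicClosure K),
      (∀ P ∈ Y, (∃ m : ℕ, 0 < m ∧ (fun P : AlgebraicClosure K × AlgebraicClosure K =>
          (P.2, aeval P.2 F - algebraMap K (AlgebraicClosure K) δ * P.1))^[m] P = P) ∧
        Module.finrank K (IntermediateField.adjoin K {P.1, P.2}) ≤ B) →
      (Y.card : ℝ) ≤ C₀ * (R * log (1 + R)) ^ 2 := by
  obtain ⟨C₀, h0, h⟩ := V5helper58.HN.sep_bound.{u} d hd D B H
  refine ⟨C₀, h0, ?_⟩
  intro K _ _ hfin F δ hF hδ T hT w hmax hsep hh R hR hR' Y hY
  refine h K hfin F δ hF hδ T hT R hR w hmax ?_ hh ?_ Y hY
  · rcases hsep with hsep | hsep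
    · exact Or.inl hsep
    · right
      rcases w with v | v
      · exact Separated.sep hd hF hsep
      · exact Separated.sep hd hF hsep
  · rcases hR' with hR' | hR'
    · exact Or.inl hR'
    · right
      rw [Fintype.sum_sum_type] at hR'
      refine le_trans (le_of_eq ?_) hR'
      congr 1
      exact (Finset.sum_coe_sort T fun v => siz v.val d F δ).symm

end Pool.Agent.Results.MP_0e6b5f_nt.BoundedDegreeBadPlaces
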