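import Pool.Agent.Results.MP_0e6b5f_nt.AllFieldsHenon
import Pool.Agent.R559.NP.Rel

/-!
# Hénon maps without periodic points of small degree: constant terms near a given point, over all number fields

Let `h` be the absolute logarithmic height. The starting file `AllFieldsHenon` shows for all elements `c` of height at most
`B` of a number field `K` but `(C B ^ (2 - (1 - κ) / 2 + ε)) ^ [K : ℚ]` that all generalized Hénon maps
`f(x, y) = (y, F(y) - δ x)` over `K` with constant term `F(0) = c`, of any degree `d ≥ 2`, push all points of degree less than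
`d` over `K` away, under `f` or under its inverse (`Escapes κ c`); so `f` has no periodic point of degree less than `d` over `K`
if the bad primes of `f` contribute less than `κ (1 + h(c))` (`NoPeriodic κ c`). Nothing is said there about the constant
terms near a given point.

**Theorem.** (1) Let `φ` be ANY map from the algebraic numbers to a metric space, for instance an embedding in `ℂ` or in
an algebraic closure of `ℚ_p`. Let `0 < κ < 1` and `τ > 0`. For all points `ξ` outside a set of Hausdorff dimension at most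
`(2 - (1 - κ) / 2) / τ`, ALL number fields `K` inside the algebraic numbers and all `M`, all but finitely many `c ∈ K` with
`dist (φ c) ξ ≤ M H_K(c) ^ (-τ)`, `H_K` the height relative to `K`, satisfy `Escapes κ c` and `NoPeriodic κ c`.

(2) Let the algebraic numbers be embedded in `ℂ`. For almost all real `ξ` this is true for ALL number fields `K`, all `M`,
all `κ` and all exponents `τ > 2 - (1 - κ) / 2`. So it is true for `τ = 2`: for `K = ℚ` the condition is
`|ξ - p / q| ≤ M max(|p|, |q|) ^ (-2)`, and for `M > max(1, |ξ|) ^ 2` there are infinitely many such `p / q` by Dirichlet's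
theorem.

Proof. Covering argument (helper559, `Pool.Agent.R559.NP`) and the count of `AllFieldsHenon`.
-/

set_option autoImplicit false

namespace Pool.Agent.Results.MP_0e6b5f_nt.ConstantTermsNearAPoint

open NumberField Polynomial IsDedekindDomain MeasureTheory
open AllFieldsHenon

/-- No generalized Hénon map `f(x, y) = (y, F(y) - δ x)` over `K` with constant term `c`, of degree `d ≥ 2`, whose bad primes
lie in a set `T` with `logNorm T < κ (1 + h c)`, has a periodic point over an extension of `K` of degree less than `d`. -/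
def NoPeriodic {K : Type} [Field K] [NumberField K] (κ : ℝ) (c : K) : Prop :=
  ∀ (F : K[X]) (δ : K), 2 ≤ F.natDegree → F.coeff 0 = c → δ ≠ 0 →
    ∀ T : Finset (HeightOneSpectrum (𝓞 K)), ContainsBad F δ T → logNorm T < κ * (1 + h c) →
    ∀ (L : Type) [Field L] [NumberField L] [Algebra K L], Module.finrank K L < F.natDegree →
      ∀ (P : L × L) (m : ℕ), 1 ≤ m → (henon L F δ)^[m] P ≠ P

theorem h_nonneg {K : Type} [Field K] [NumberField K] (c : K) : 0 ≤ h c := by
  unfold h
  exact div_nonneg (Height.zero_le_logHeight₁ _) (Nat.cast_nonneg _)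

theorem escapes_mono {K : Type} [Field K] [NumberField K] {κ κ' : ℝ} (hκ : κ ≤ κ') {c : K} (H : Escapes κ' c) :
    Escapes κ c := by
  intro F δ hd hF hδ T hT L _ _ _ hL P k
  refine le_trans (mul_le_mul_of_nonneg_left ?_ (by positivity)) (H F δ hd hF hδ T hT L hL P k)
  have h1 := h_nonneg c
  have h2 : κ * (1 + h c) ≤ κ' * (1 + h c) := mul_le_mul_of_nonneg_right hκ (by linarith)
  linarith

theorem part_one (X : Type) [MetricSpace X] (φ : AlgebraicClosure ℚ → X) (κ τ : ℝ) (hκ0 : 0 < κ) (hκ : κ < 1)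
    (hτ : 0 < τ) :
    ∃ E : Set X, dimH E ≤ ENNReal.ofReal ((2 - (1 - κ) / 2) / τ) ∧ ∀ ξ : X, ξ ∉ E →
      ∀ (K : IntermediateField ℚ (AlgebraicClosure ℚ)) [NumberField K] (M : ℝ),
        {c : K | dist (φ c) ξ ≤ M * Height.mulHeight₁ c ^ (-τ) ∧ ¬ Escapes κ c}.Finite := by
  refine Pool.Agent.R559.NP.near_fields (X := X) (fun K _ c => ¬ Escapes (K := K) κ c)
    (s := 2 - (1 - κ) / 2) (τ := τ) (by linarith) hτ ?_ φ
  intro K _ ε hε
  obtain ⟨C, hC, h⟩ := AllFieldsHenon.result.1 κ ε hκ0 hκ hε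
  refine ⟨C, hC, fun B hB => ?_⟩
  obtain ⟨h1, h2⟩ := h K B hB
  have hset : {c : K | ¬ Escapes κ c ∧ Height.logHeight₁ c ≤ Module.finrank ℚ K * Real.log B} = Exc K κ B := by
    ext c
    simp only [Exc, El, Set.mem_ofPred_eq]
    exact and_comm
  rw [hset]
  exact ⟨h1.subset fun c hc => hc.1, h2⟩

theorem noPeriodic_of {K : Type} [Field K] [NumberField K] {κ : ℝ} {c : K} (hc : Escapes κ c) : NoPeriodic κ c :=
  AllFieldsHenon.result.2.2.2.2.1 K κ c hc

theorem null_of_dim {E : Set ℝ} (h : dimH E < 1) : volume E = 0 := by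
  have h1 : dimH E < ((1 : NNReal) : ENNReal) := by simpa using h
  have h2 := hausdorffMeasure_of_dimH_lt h1
  rw [← hausdorffMeasure_real]
  simpa using h2

/-- **Theorem.** -/
theorem result :
    (∀ (X : Type) [MetricSpace X] (φ : AlgebraicClosure ℚ → X) (κ τ : ℝ), 0 < κ → κ < 1 → 0 < τ →
      ∃ E : Set X, dimH E ≤ ENNReal.ofReal ((2 - (1 - κ) / 2) / τ) ∧ ∀ ξ : X, ξ ∉ E →
        ∀ (K : IntermediateField ℚ (AlgebraicClosure ℚ)) [NumberField K] (M : ℝ),
          {c : K | dist (φ c) ξ ≤ M * Height.mulHeight₁ c ^ (-τ) ∧ ¬ (Escapes κ c ∧ NoPeriodic κ c)}.Finite) ∧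
    ∀ σ : AlgebraicClosure ℚ →+* ℂ, ∀ᵐ ξ : ℝ, ∀ κ τ : ℝ, 0 < κ → κ < 1 → 2 - (1 - κ) / 2 < τ →
      ∀ (K : IntermediateField ℚ (AlgebraicClosure ℚ)) [NumberField K] (M : ℝ),
        {c : K | ‖σ c - ξ‖ ≤ M * Height.mulHeight₁ c ^ (-τ) ∧ ¬ (Escapes κ c ∧ NoPeriodic κ c)}.Finite := by
  refine ⟨fun X _ φ κ τ hκ0 hκ hτ => ?_, fun σ => ?_⟩
  · obtain ⟨E, hE, hE'⟩ := part_one X φ κ τ hκ0 hκ hτ
    refine ⟨E, hE, fun ξ hξ K _ M => (hE' ξ hξ K M).subset ?_⟩
    rintro c ⟨h1, h2⟩
    exact ⟨h1, fun hc => h2 ⟨hc, noPeriodic_of hc⟩⟩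
  · have key : ∀ q : ℚ × ℚ, ∃ E : Set ℝ, volume E = 0 ∧ (0 < q.1 → q.1 < 1 → 2 - (1 - q.1) / 2 < q.2 →
        ∀ ξ : ℝ, ξ ∉ E → ∀ (K : IntermediateField ℚ (AlgebraicClosure ℚ)) [NumberField K] (M : ℝ),
          {c : K | ‖σ c - ξ‖ ≤ M * Height.mulHeight₁ c ^ (-(q.2 : ℝ)) ∧ ¬ Escapes (q.1 : ℝ) c}.Finite) := by
      rintro ⟨κ, τ⟩
      by_cases hq : 0 < κ ∧ κ < 1 ∧ 2 - (1 - κ) / 2 < τ
      · obtain ⟨h1, h2, h3⟩ := hq
        have h1' : (0 : ℝ) < κ := by exact_mod_cast h1
        have h2' : (κ : ℝ) < 1 := by exact_mod_cast h2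
        have h3' : 2 - (1 - (κ : ℝ)) / 2 < τ := by exact_mod_cast h3
        have hτ : (0 : ℝ) < τ := by linarith
        obtain ⟨E, hE, hE'⟩ := part_one ℂ (fun x => σ x) κ τ h1' h2' hτ
        have hiso : AntilipschitzWith 1 (fun x : ℝ => (x : ℂ)) := by
          refine AntilipschitzWith.of_le_mul_dist fun x y => ?_
          rw [NNReal.coe_one, one_mul, Complex.dist_eq, ← Complex.ofReal_sub, Complex.norm_real, Real.dist_eq,
            Real.norm_eq_abs]
        refine ⟨(fun x : ℝ => (x : ℂ)) ⁻¹' E, null_of_dim ?_, fun _ _ _ ξ hξ K _ M => ?_⟩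
        · refine ((hiso.dimH_preimage_le E).trans hE).trans_lt ?_
          rw [← ENNReal.ofReal_one]
          refine (ENNReal.ofReal_lt_ofReal_iff one_pos).2 ?_
          rw [div_lt_one hτ]
          exact h3'
        · refine (hE' (ξ : ℂ) hξ K M).subset ?_
          rintro c ⟨h4, h5⟩
          exact ⟨by rw [Complex.dist_eq]; exact h4, h5⟩
      · exact ⟨∅, measure_empty, fun h1 h2 h3 => absurd ⟨h1, h2, h3⟩ hq⟩
    choose E hE1 hE2 using key
    have hae : ∀ᵐ ξ : ℝ, ∀ q : ℚ × ℚ, ξ ∉ E q := ae_all_iff.2 fun q => compl_mem_ae_iff.2 (hE1 q)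
    filter_upwards [hae] with ξ hξ κ τ hκ0 hκ hτ K _ M
    obtain ⟨q, hq1, hq2⟩ := exists_rat_btwn (show κ < min 1 (2 * τ - 3) from lt_min hκ (by linarith))
    have hq3 : (q : ℝ) < 1 := hq2.trans_le (min_le_left _ _)
    have hq4 : (q : ℝ) < 2 * τ - 3 := hq2.trans_le (min_le_right _ _)
    obtain ⟨r, hr1, hr2⟩ := exists_rat_btwn (show 2 - (1 - (q : ℝ)) / 2 < τ by linarith)
    have h1 : (0 : ℚ) < q := by exact_mod_cast hκ0.trans hq1
    have h2 : q < 1 := by exact_mod_cast hq3
    have h3 : 2 - (1 - q) / 2 < r := by exact_mod_cast hr1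
    refine (hE2 (q, r) h1 h2 h3 ξ (hξ _) K |M|).subset ?_
    rintro c ⟨h4, h5⟩
    refine ⟨h4.trans ?_, fun hc => ?_⟩
    · have h6 := Height.one_le_mulHeight₁ c
      calc M * Height.mulHeight₁ c ^ (-τ) ≤ |M| * Height.mulHeight₁ c ^ (-τ) :=
            mul_le_mul_of_nonneg_right (le_abs_self M) (Real.rpow_nonneg (by linarith) _)
        _ ≤ |M| * Height.mulHeight₁ c ^ (-(r : ℝ)) :=
            mul_le_mul_of_nonneg_left (Real.rpow_le_rpow_of_exponent_le h6 (by linarith)) (abs_nonneg M)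
    · have hc' : Escapes κ c := escapes_mono hq1.le hc
      exact h5 ⟨hc', noPeriodic_of hc'⟩

end Pool.Agent.Results.MP_0e6b5f_nt.ConstantTermsNearAPoint
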