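import Pool.Agent.V5helper58.HN.MainFar
import Pool.Agent.V5helper58.HN.Crit

/-!
# Periodic points of bounded degree of Hénon maps with many places where the polynomial does not split

Let `f(x, y) = (y, F(y) - δ x)` be a generalized Hénon map of degree `d` over a number field `K`. For
a finite place `v` let `s_v` be its size, i.e. the logarithm of the radius (in normalized coordinates)
of the set of the roots of the centred form `G` of `F`; it is zero at almost all places. If the
reduction of `G`, scaled so that its roots have radius one, has an irreducible factor of degree larger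
than `B` over the residue field, then the periodic points of degree at most `B` over `K` are near at
most `d - 2` of the `d` roots of `G`, with multiplicities. We prove that such places bound the
number of the periodic points of degree at most `B`: if they carry the part `1/R` of the height of
`f`, then there are at most `C (R log (1 + R))²` of these points, with `C = C(D, d, B)`. The number of
the places of bad reduction is not bounded here.

Proof: an interpolation determinant of `N` of these points over the algebraic closure. At the
non-split places we use powers of the product `G₁` of the linear factors of `G` which vanish near one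
of the points: its value at the points is as small as that of `G`, and its degree is at most `d - 2`.
At the other places we use products of the coordinates of the orbit. Then the product formula for the
norm of the determinant gives the bound.
-/

set_option autoImplicit false

namespace Pool.Agent.Results.MP_0e6b5f_nt.NonSplitPlaces

open Real NumberField Polynomial Pool.Agent.H951R3.PH

universe u

/-- The finite place `v` is `B`-non-split for the Hénon map `(x, y) ↦ (y, F(y) - δ x)` of degree `d`:
for every extension `w` of `v` to the algebraic closure, at least two of the roots `ρ 1, …, ρ d` of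
the centred form `G` of `F` (counted with multiplicity) have `w`-adic distance at least
`T / |a|^(1/(d-1))` from all elements of degree at most `B` over `K` (`a` is the leading coefficient
and `T` the exponential of the size). Or: `F = a (X - b)^d + c` is unicritical, `d ≥ 3` is a `v`-adic
unit, and no `q^f - 1` with `1 ≤ f ≤ B²` is divisible by `d`, where `q` is the number of elements of
the residue field. -/
def NonSplit {K : Type u} [Field K] [NumberField K] (v : FinitePlace K) (d : ℕ) (F : K[X]) (δ : K)
    (B : ℕ) : Prop :=
  (∀ w : AbsoluteValue (AlgebraicClosure K) ℝ,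
      (∀ x : K, w (algebraMap K (AlgebraicClosure K) x) = v.val x) →
    ∀ ρ : Fin d → AlgebraicClosure K,
      (cen d F δ).map (algebraMap K (AlgebraicClosure K)) =
        C (algebraMap K (AlgebraicClosure K) (F.coeff d)) * ∏ i, (X - C (ρ i)) →
    ∃ i j, i ≠ j ∧ ∀ z : AlgebraicClosure K, (minpoly K z).natDegree ≤ B →
      Tv v.val d (cen d F δ) / al v.val d F ≤ w (z - ρ i) ∧
        Tv v.val d (cen d F δ) / al v.val d F ≤ w (z - ρ j)) ∨
  (3 ≤ d ∧ (∃ a b c : K, F = C a * (X - C b) ^ d + C c) ∧ v (d : K) = 1 ∧
    ∀ f : ℕ, 1 ≤ f → f ≤ B ^ 2 → ¬ d ∣ Ideal.absNorm v.maximalIdeal.asIdeal ^ f - 1)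

theorem NonSplit.far {K : Type u} [Field K] [NumberField K] {v : FinitePlace K} {d : ℕ}
    (hd : 2 ≤ d) {F : K[X]} (hF : F.natDegree = d) {δ : K} {B : ℕ} (h : NonSplit v d F δ B)
    (hs : 0 < siz v.val d F δ) : V5helper58.HN.Far v.val d (cen d F δ) B := by
  have hlead : (cen d F δ).coeff d = F.coeff d := cen_lead hd hF δ
  rcases h with h | ⟨h3, hu, hv, hf⟩
  · intro w hw ρ hρ
    rw [hlead] at hρ
    have hal : al v.val d (cen d F δ) = al v.val d F := by
      unfold al
      rw [hlead]
    rw [hal]
    exact h w hw ρ hρ
  · obtain ⟨c', hc'⟩ := V5helper58.HN.cen_unicritical hd hF δ hu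
    rw [← hlead] at hc'
    refine V5helper58.HN.far_unicritical h3 (cen_natDegree hd hF δ) hc' v ?_ hv ?_
    · by_contra hcon
      have h1 : Tv v.val d (cen d F δ) = 1 := le_antisymm (not_lt.1 hcon) (one_le_Tv _ _ _)
      have h2 : siz v.val d F δ = 0 := by
        unfold siz
        rw [h1, log_one]
      linarith
    · intro f h1 h2
      exact hf f h1 (by rw [pow_two]; exact h2)

/-- For all `d ≥ 2`, `D`, `B` there is `C₀` such that for every number field `K` of degree at most
`D` and every generalized Hénon map `f(x, y) = (y, F(y) - δ x)` of degree `d` over `K`: let `T` be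
a finite set of finite places containing all those at which `f` does not have potentially good
reduction, let `s_v` be the size of `f` at `v`, and let `N` be a finite set of `B`-non-split finite
places `v` with `|log |δ|_v| ≤ s_v / 8`. If `R ≥ 1` and the sum of `1`, of the height of `δ` (times
`[K : ℚ]`), and of the sizes (with multiplicities) at the infinite places and at the elements of `T`
is at most `R` times the sum of the `s_v`, `v ∈ N`, then `f` has at most `C₀ (R log (1 + R))²`
periodic points `P` over the algebraic closure with `[K(P) : K] ≤ B`. -/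
theorem result (d : ℕ) (hd : 2 ≤ d) (D B : ℕ) : ∃ C₀ : ℝ, 0 < C₀ ∧
    ∀ (K : Type u) [Field K] [NumberField K], Module.finrank ℚ K ≤ D →
    ∀ (F : K[X]) (δ : K), F.natDegree = d → δ ≠ 0 →
    ∀ T : Finset (FinitePlace K), (∀ v, v ∉ T → PotGood v.val d F δ) →
    ∀ N : Finset (FinitePlace K),
      (∀ v ∈ N, NonSplit v d F δ B ∧ |log (v.val δ)| ≤ siz v.val d F δ / 8) →
    ∀ R : ℝ, 1 ≤ R →
      1 + Height.logHeight₁ δ + (∑ v : InfinitePlace K, v.mult * siz v.val d F δ +
        ∑ v ∈ T, siz v.val d F δ) ≤ R * ∑ v ∈ N, siz v.val d F δ →
    ∀ Y : Finset (AlgebraicClosure K × AlgebraicClosure K),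
      (∀ P ∈ Y, (∃ m : ℕ, 0 < m ∧ (fun P : AlgebraicClosure K × AlgebraicClosure K =>
          (P.2, aeval P.2 F - algebraMap K (AlgebraicClosure K) δ * P.1))^[m] P = P) ∧
        Module.finrank K (IntermediateField.adjoin K {P.1, P.2}) ≤ B) →
      (Y.card : ℝ) ≤ C₀ * (R * log (1 + R)) ^ 2 := by
  obtain ⟨C₀, h0, h⟩ := V5helper58.HN.far_bound.{u} d hd D B
  refine ⟨C₀, h0, ?_⟩
  intro K _ _ hfin F δ hF hδ T hT N hN R hR htot Y hY
  exact h K hfin F δ hF hδ T hT N
    (fun v hv => ⟨fun hs => (hN v hv).1.far hd hF hs, (hN v hv).2⟩) R hR htot Y hY

end Pool.Agent.Results.MP_0e6b5f_nt.NonSplitPlaces
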