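import Pool.Agent.V5helper64.HN.Conj
import Pool.Agent.R559.NP.Near3

/-!
# Uniform boundedness for all Hénon maps over all number fields near a given point

Let `d ≥ 2` and let `φ` be any map from the set of all generalized Hénon maps `f(x, y) = (y, F(y) - δ x)` of
degree `d` over all number fields to a metric space `X` which takes the same value on maps conjugate by
coordinate changes `(x, y) ↦ (α x + β, α y + β)` over the algebraic numbers, for example the coordinates
of the moduli space (invariants of the coefficients of `F`, and `δ`) in `ℝ ^ n`, `ℂ ^ n` or `ℂ_p ^ n` for embeddings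
of the fields.

**Theorem.** There is a set `E ⊆ X` of Hausdorff dimension zero such that for all `ξ ∈ X` outside `E`, all
`τ > 0`, all `D` and all `B`

(1) for every `κ` there is `M` such that EVERY generalized Hénon map `f` of degree `d` over a number field `K` of
degree at most `D` with `dist (φ f) ξ ≤ κ H(f) ^ (-τ)` has at most `M` periodic points `P` over the algebraic
numbers with `[K(P) : K] ≤ B`;

(2) there is `N`, independent of `κ`, such that all these maps but those in finitely many conjugacy classes have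
at most `N` periodic points `P` with `[K(P) : K] ≤ B`.

Here `H(f)` is the relative height of the coefficients.  The set `E` does not depend on `D`, `B` and `τ`.

Proof.  By the starting result `FewExceptionalClasses` there are for every `ε > 0` numbers `N`, `C` such
that the maps `f` with `H(f) ≤ T` over number fields of degree at most `D` with more than `N` periodic points
with `[K(P) : K] ≤ B` lie in at most `C T ^ ε` conjugacy classes.  The points of `X` near which there are
infinitely many of these classes, at the distance `κ T ^ (-τ)`, have dimension at most `ε / τ`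
(helper559).  For the finitely many other classes there is a bound for each class: if `α`, `β` conjugates
`f` to a fixed map `g` then `α ^ (d - 1)` is the quotient of the leading coefficients and `β` is given by `α` and
the next coefficients, so that the degrees of `α`, `β` are bounded, and the periodic points of `g` of bounded degree
are finite in number.
-/

set_option autoImplicit false

namespace Pool.Agent.Results.MP_0e6b5f_nt.UniformBoundNearAPoint

open Filter Topology
open FewExceptionalClasses (Qbar HenonMap Conjugate)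
open Pool.Agent.V5helper64.HN

variable {d : ℕ}

/-- The maps are conjugate by a coordinate change `(x, y) ↦ (α x + β, α y + β)`, `α ≠ 0`, over the
algebraic numbers. -/
def ConjugateMaps (f g : HenonMap d) : Prop :=
  ∃ α β : Qbar, α ≠ 0 ∧ ∀ x y : Qbar, g.toFun (α * x + β, α * y + β) =
    (α * (f.toFun (x, y)).1 + β, α * (f.toFun (x, y)).2 + β)

lemma rel_iff (f g : HenonMap d) : ConjugateMaps f g ↔ Rel (data f) (data g) := Iff.rfl

/-- conjugacy classes of coefficients -/
def st (d : ℕ) : Setoid ((Fin (d + 1) → Qbar) × Qbar) where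
  r := Rel
  iseqv := ⟨Rel.refl, Rel.symm, Rel.trans⟩

/-- the class of a map -/
noncomputable def cl (f : HenonMap d) : Quotient (st d) := Quotient.mk (st d) (data f)

lemma cl_eq {f g : HenonMap d} (h : cl f = cl g) : ConjugateMaps f g := Quotient.exact (s := st d) h

/-- **Theorem.** -/
theorem result (d : ℕ) (hd : 2 ≤ d) (X : Type) [MetricSpace X] (φ : HenonMap d → X)
    (hφ : ∀ f g, ConjugateMaps f g → φ f = φ g) :
    ∃ E : Set X, dimH E = 0 ∧ ∀ ξ : X, ξ ∉ E → ∀ τ : ℝ, 0 < τ → ∀ D B : ℕ,
      (∀ κ : ℝ, ∃ M : ℕ, ∀ f : HenonMap d, Module.finrank ℚ f.K ≤ D →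
        dist (φ f) ξ ≤ κ * f.height ^ (-τ) → (f.periodic B).encard ≤ M) ∧
      (∃ N : ℕ, ∀ κ : ℝ, ∃ S : Finset (HenonMap d), ∀ f : HenonMap d, Module.finrank ℚ f.K ≤ D →
        dist (φ f) ξ ≤ κ * f.height ^ (-τ) → (N : ℕ∞) < (f.periodic B).encard →
        ∃ g ∈ S, ConjugateMaps g f) := by
  classical
  -- `D` and `B` are replaced by `D + 1` and `B + 1`
  have hres := fun (j : ℕ) (y : ℕ × ℕ) => FewExceptionalClasses.result (y.1 + 1) (y.2 + 1) d
    (Nat.succ_pos _) (Nat.succ_pos _) hd (1 / ((j : ℝ) + 1)) (by positivity)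
  choose N C hN using hres
  have hQ : Countable Qbar := Set.countable_univ_iff.1 ((Algebraic.countable ℚ Qbar).mono fun x _ =>
    (AlgebraicClosure.isAlgebraic ℚ).isAlgebraic x)
  have hct : Countable (Quotient (st d)) := Quotient.countable
  let Z : Type := {z : Quotient (st d) // ∃ f : HenonMap d, cl f = z}
  have hZ : Countable Z := inferInstance
  let φ' : Z → X := fun z => φ z.2.choose
  have hφ' : ∀ f : HenonMap d, φ' ⟨cl f, f, rfl⟩ = φ f := by
    intro f
    have h : ∃ g : HenonMap d, cl g = cl f := ⟨f, rfl⟩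
    exact hφ _ _ (cl_eq h.choose_spec)
  obtain ⟨E, hE, hE'⟩ := Pool.Agent.R559.NP.near_zero_lvl (Z := Z) (Y := ℕ × ℕ) (X := X)
    (F := fun j y T => {z | ∃ f : HenonMap d, cl f = z.1 ∧ f.Exceptional (y.1 + 1) (y.2 + 1) (N j y) T})
    (by
      rintro j y t t' htt z ⟨f, h1, h2, h3, h4⟩
      exact ⟨f, h1, h2, h3.trans (by exact_mod_cast htt), h4⟩)
    (s := fun j => 1 / ((j : ℝ) + 1)) (fun j => by positivity) tendsto_one_div_add_atTop_nhds_zero_nat
    (by
      intro j y
      refine ⟨|C j y|, fun T hT => ?_⟩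
      obtain ⟨Q, hQ⟩ : ∃ Q : Set Z, Q = {z | ∃ f : HenonMap d, cl f = z.1 ∧
        f.Exceptional (y.1 + 1) (y.2 + 1) (N j y) T} := ⟨_, rfl⟩
      rw [← hQ]
      have key : ∀ P : Finset Z, (∀ z ∈ P, z ∈ Q) →
          (P.card : ℝ) ≤ C j y * (T : ℝ) ^ (1 / ((j : ℝ) + 1)) := by
        intro P hP
        have hP' : ∀ z : Z, z ∈ P → ∃ f : HenonMap d, cl f = z.1 ∧
            f.Exceptional (y.1 + 1) (y.2 + 1) (N j y) T := by
          intro z hz
          have := hP z hz
          rw [hQ] at this
          exact this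
        have hP'' : ∀ z : Z, ∃ f : HenonMap d, z ∈ P → cl f = z.1 ∧
            f.Exceptional (y.1 + 1) (y.2 + 1) (N j y) T := by
          intro z
          by_cases hz : z ∈ P
          · obtain ⟨f, hf⟩ := hP' z hz
            exact ⟨f, fun _ => hf⟩
          · exact ⟨z.2.choose, fun h => absurd h hz⟩
        choose g hg using hP''
        have hinj : Set.InjOn g P := by
          intro z hz z' hz' he
          apply Subtype.ext
          rw [← (hg z hz).1, ← (hg z' hz').1, he]
        rw [← Finset.card_image_of_injOn hinj]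
        refine hN j y T hT (P.image g) ?_ ?_
        · intro f hf
          obtain ⟨z, hz, rfl⟩ := Finset.mem_image.1 hf
          exact (hg z hz).2
        · rintro f hf f' hf' hne ⟨α, β, hα, -, h⟩
          obtain ⟨z, hz, rfl⟩ := Finset.mem_image.1 hf
          obtain ⟨z', hz', rfl⟩ := Finset.mem_image.1 hf'
          apply hne
          have h1 : cl (g z) = cl (g z') := Quotient.sound (s := st d) ⟨α, β, hα, h⟩
          have h2 : z = z' := Subtype.ext (by rw [← (hg z hz).1, ← (hg z' hz').1, h1])
          rw [h2]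
      have hfin : Q.Finite := by
        by_contra hinf
        obtain ⟨P, hP1, hP2⟩ := (show Q.Infinite from hinf).exists_subset_card_eq
          (⌊C j y * (T : ℝ) ^ (1 / ((j : ℝ) + 1))⌋₊ + 1)
        have h2 := key P (fun x hx => hP1 hx)
        rw [hP2] at h2
        push_cast at h2
        have h3 := Nat.lt_floor_add_one (C j y * (T : ℝ) ^ (1 / ((j : ℝ) + 1)))
        linarith
      refine ⟨hfin, ?_⟩
      rw [Set.ncard_eq_toFinset_card _ hfin]
      refine (key hfin.toFinset (fun x hx => by
        rw [Set.Finite.mem_toFinset] at hx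
        exact hx)).trans ?_
      exact mul_le_mul_of_nonneg_right (le_abs_self _) (by positivity))
    (fun _ z => φ' z)
  refine ⟨E, hE, fun ξ hξ τ hτ D B => ?_⟩
  obtain ⟨j, hj⟩ := hE' ξ hξ τ hτ
  -- heights
  have hH1 : ∀ f : HenonMap d, 1 ≤ f.height := by
    intro f
    unfold HenonMap.height
    exact Height.one_le_mulHeight _
  have hmem : ∀ (κ : ℝ) (f : HenonMap d), Module.finrank ℚ f.K ≤ D →
      dist (φ f) ξ ≤ κ * f.height ^ (-τ) → (N j (D, B) : ℕ∞) < (f.periodic B).encard →
      (⟨cl f, f, rfl⟩ : Z) ∈ (hj (D, B) (max κ 0 * 2 ^ τ)).toFinset := by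
    intro κ f hfD hdist hn
    rw [Set.Finite.mem_toFinset]
    have h1 := hH1 f
    have hle : f.height ≤ (⌈f.height⌉₊ : ℝ) := Nat.le_ceil _
    have hceil : (⌈f.height⌉₊ : ℝ) ≤ 2 * f.height := by
      have := (Nat.ceil_lt_add_one (by linarith : 0 ≤ f.height)).le
      linarith
    have hc0 : (0 : ℝ) < ⌈f.height⌉₊ := by linarith
    refine ⟨⌈f.height⌉₊, by exact_mod_cast h1.trans hle, ⟨f, rfl, by omega, hle, ?_⟩, ?_⟩
    · refine hn.trans_le (Set.encard_le_encard ?_)
      rintro P ⟨hP1, hP2⟩
      exact ⟨hP1, by omega⟩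
    · rw [hφ']
      refine hdist.trans ((mul_le_mul_of_nonneg_right (le_max_left κ 0)
        (Real.rpow_nonneg (by linarith) _)).trans ?_)
      rw [mul_assoc]
      refine mul_le_mul_of_nonneg_left ?_ (le_max_right _ _)
      have h2 : (2 * f.height) ^ (-τ) ≤ (⌈f.height⌉₊ : ℝ) ^ (-τ) :=
        Real.rpow_le_rpow_of_nonpos hc0 hceil (by linarith)
      rw [Real.mul_rpow two_pos.le (by linarith)] at h2
      have h3 : (2 : ℝ) ^ τ * (2 ^ (-τ) * f.height ^ (-τ)) = f.height ^ (-τ) := by
        rw [← mul_assoc, ← Real.rpow_add two_pos, add_neg_cancel, Real.rpow_zero, one_mul]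
      rw [← h3]
      exact mul_le_mul_of_nonneg_left h2 (by positivity)
  constructor
  · intro κ
    have hb : ∀ z : Z, ∃ M : ℕ, ∀ f : HenonMap d, cl f = z.1 → Module.finrank ℚ f.K ≤ D →
        (f.periodic B).encard ≤ M := by
      intro z
      obtain ⟨g, hg⟩ := z.2
      obtain ⟨M, hM⟩ := class_bound hd g D B
      exact ⟨M, fun f hf hfD => hM f (cl_eq (hf.trans hg.symm)) hfD⟩
    choose b hb using hb
    refine ⟨max (N j (D, B)) ((hj (D, B) (max κ 0 * 2 ^ τ)).toFinset.sup b), fun f hfD hdist => ?_⟩
    rcases le_or_gt (f.periodic B).encard (N j (D, B) : ℕ∞) with h | h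
    · exact h.trans (by exact_mod_cast le_max_left _ _)
    · have h1 := hmem κ f hfD hdist h
      have h2 := hb ⟨cl f, f, rfl⟩ f rfl hfD
      have h3 : b ⟨cl f, f, rfl⟩ ≤ (hj (D, B) (max κ 0 * 2 ^ τ)).toFinset.sup b := Finset.le_sup h1
      refine h2.trans ?_
      exact_mod_cast h3.trans (le_max_right _ _)
  · refine ⟨N j (D, B), fun κ => ⟨(hj (D, B) (max κ 0 * 2 ^ τ)).toFinset.image fun z => z.2.choose,
      fun f hfD hdist hn => ?_⟩⟩
    refine ⟨(⟨cl f, f, rfl⟩ : Z).2.choose, Finset.mem_image_of_mem _ (hmem κ f hfD hdist hn), ?_⟩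
    exact cl_eq (⟨cl f, f, rfl⟩ : Z).2.choose_spec

end Pool.Agent.Results.MP_0e6b5f_nt.UniformBoundNearAPoint
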